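import Pool.Agent.Run7.h74.AE.All
import Pool.Agent.Q178.UM.ZF2

set_option autoImplicit false

/-!
Project AE (helper74): lemmas for the final file (Mertens at one point, ordinates, the exponential).
-/

open Filter Topology MeasureTheory Complex
open Pool.Agent.Q97.UM

namespace Pool.Agent.Run7.h74.AE

open Run7.h311.CM

noncomputable section

/-- the ordinates of the zeros to the right of the critical line or on it, and zero -/
def Ords : Set ℝ := {0} ∪ (fun ρ : ℂ => ρ.im) '' Pool.Agent.Q178.UM.ZF2.Z0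

lemma Ords_countable : Ords.Countable :=
  (Set.countable_singleton 0).union (Pool.Agent.Q178.UM.ZF2.countable_Z0.image _)

lemma not_Ords {t : ℝ} (h : t ∉ Ords) : t ≠ 0 ∧ ∀ σ : ℝ, 1 / 2 ≤ σ → riemannZeta (σ + t * I) ≠ 0 := by
  unfold Ords at h
  rw [Set.mem_union, not_or] at h
  refine ⟨fun h0 => h.1 (by rw [h0]; rfl), fun σ hσ h0 => ?_⟩
  by_cases h1 : 1 ≤ σ
  · refine riemannZeta_ne_zero_of_one_le_re ?_ h0
    simpa using h1
  · push Not at h1
    refine h.2 ⟨σ + t * I, ⟨h0, ?_, ?_⟩, ?_⟩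
    · simp
      linarith
    · simpa using h1
    · simp

/-- the regular points without ordinates -/
def GGD (δ κ A W T : ℝ) : Set ℝ := GGC δ κ A W T \ Ords

lemma GGD_meas (hz : S_AZM) (δ κ A W T : ℝ) : MeasurableSet (GGD δ κ A W T) :=
  (GGC_meas hz δ κ A W T).diff Ords_countable.measurableSet

lemma GGD_ae (δ κ A W T : ℝ) : (GGD δ κ A W T : Set ℝ) =ᵐ[volume] GGC δ κ A W T := by
  unfold GGD
  exact sdiff_ae_eq_self.2 (measure_mono_null Set.inter_subset_right (Ords_countable.measure_zero volume))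

lemma shift_ae {S S' : Set ℝ} (h : S =ᵐ[volume] S') (α : ℝ) : ({t : ℝ | t + α ∈ S} : Set ℝ) =ᵐ[volume] {t : ℝ | t + α ∈ S'} := by
  have hq : Measure.QuasiMeasurePreserving (fun t : ℝ => t + α) volume volume :=
    (measurePreserving_add_right volume α).quasiMeasurePreserving
  exact hq.preimage_ae_eq h

/-- the exponential of the logarithm -/
lemma zt_exp {t : ℝ} (h : t ∉ Ords) (h0 : zt t ≠ 0) : zt t = cexp ((Real.log ‖zt t‖ : ℂ) + (az t : ℂ) * I) := by
  obtain ⟨h1, h2⟩ := not_Ords h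
  have h3 := Pool.Agent.Run7.h510.AE.t_AZE t h1 h2
  have h4 : 0 < ‖zt t‖ := norm_pos_iff.2 h0
  have h5 : (‖zt t‖ : ℂ) = cexp (Real.log ‖zt t‖ : ℂ) := by
    rw [← Complex.ofReal_exp, Real.exp_log h4]
  rw [Complex.exp_add, ← h5, mul_comm (az t : ℂ) I]
  exact h3

/-- Mertens -/
lemma mert : ∃ C : ℝ, 0 ≤ C ∧ ∀ᶠ T : ℝ in atTop,
    |(∑ p ∈ (Finset.Icc 1 ⌊T⌋₊).filter Nat.Prime, (1 : ℝ) / p) - Real.log (Real.log T)| ≤ C := by
  obtain ⟨C₂, h2⟩ := Pool.Agent.Q149.UM.t_MZ 1 one_pos le_rfl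
  have hlim : Tendsto (fun T : ℝ => ‖(((1 / Real.log T : ℝ) : ℂ)) * riemannZeta (1 + ((1 / Real.log T : ℝ) : ℂ))‖) atTop (𝓝 1) := by
    have h3 : Tendsto (fun T : ℝ => (1 + ((1 / Real.log T : ℝ) : ℂ))) atTop (𝓝[≠] 1) := by
      rw [tendsto_nhdsWithin_iff]
      constructor
      · have h4 : Tendsto (fun T : ℝ => ((1 / Real.log T : ℝ) : ℂ)) atTop (𝓝 ((0 : ℝ) : ℂ)) := by
          refine (Complex.continuous_ofReal.tendsto 0).comp ?_
          have h45 : Tendsto (fun T : ℝ => (Real.log T)⁻¹) atTop (𝓝 0) := Real.tendsto_log_atTop.inv_tendsto_atTop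
          simpa [one_div] using h45
        have h5 := h4.const_add (1 : ℂ)
        simpa using h5
      · filter_upwards [eventually_gt_atTop (1 : ℝ)] with T hT
        have hL : 0 < Real.log T := Real.log_pos hT
        intro h
        have h6 : ((1 / Real.log T : ℝ) : ℂ) = 0 := by
          have : (1 : ℂ) + ((1 / Real.log T : ℝ) : ℂ) = 1 + 0 := by rw [add_zero]; exact h
          exact add_left_cancel this
        have h7 : (1 / Real.log T : ℝ) = 0 := by exact_mod_cast h6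
        have : 0 < 1 / Real.log T := by positivity
        linarith
    have h8 := (riemannZeta_residue_one.comp h3).norm
    rw [norm_one] at h8
    refine h8.congr fun T => ?_
    simp only [Function.comp]
    rw [add_sub_cancel_left]
  have hlog := (hlim.log one_ne_zero)
  rw [Real.log_one] at hlog
  have h9 := hlog.eventually (Metric.ball_mem_nhds (0 : ℝ) one_pos)
  refine ⟨max 0 (C₂ + 1), le_max_left _ _, ?_⟩
  filter_upwards [h2, h9, eventually_gt_atTop (1 : ℝ)] with T h2 h9 hT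
  have hL : 0 < Real.log T := Real.log_pos hT
  have h2 := h2 0
  simp only [zero_mul, Real.cos_zero, Real.rpow_one] at h2
  rw [Real.dist_eq, sub_zero, norm_mul] at h9
  have hz : riemannZeta (1 + ((1 / Real.log T : ℝ) : ℂ)) ≠ 0 := by
    apply riemannZeta_ne_zero_of_one_le_re
    rw [Complex.add_re, Complex.one_re, Complex.ofReal_re]
    have : 0 < 1 / Real.log T := by positivity
    linarith
  have hz0 : 0 < ‖riemannZeta (1 + ((1 / Real.log T : ℝ) : ℂ))‖ := norm_pos_iff.2 hz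
  have e1 : ‖(((1 / Real.log T : ℝ) : ℂ))‖ = 1 / Real.log T := by
    rw [Complex.norm_real, Real.norm_of_nonneg (by positivity)]
  rw [e1, Real.log_mul (by positivity) hz0.ne', one_div, Real.log_inv] at h9
  have e2 : (1 : ℂ) + 1 / (Real.log T : ℂ) + ((0 : ℝ) : ℂ) * I = 1 + ((1 / Real.log T : ℝ) : ℂ) := by
    push_cast
    ring
  rw [one_div] at e2
  have h2' : |(∑ p ∈ (Finset.Icc 1 ⌊T⌋₊).filter Nat.Prime, (1 : ℝ) / p) -
      Real.log ‖riemannZeta (1 + (((Real.log T)⁻¹ : ℝ) : ℂ))‖| ≤ C₂ := by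
    have e3 : (1 : ℂ) + (((Real.log T)⁻¹ : ℝ) : ℂ) = 1 + 1 / (Real.log T : ℂ) + 0 := by
      push_cast
      ring
    rw [e3]
    simpa using h2
  have h10 := abs_le.1 h2'
  have h11 := abs_lt.1 h9
  refine le_trans (abs_le.2 ⟨?_, ?_⟩) (le_max_right 0 (C₂ + 1))
  · linarith [h10.1, h11.1]
  · linarith [h10.2, h11.2]

end

end Pool.Agent.Run7.h74.AE
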