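import Pool.Agent.Q97.UM.Stm10

set_option autoImplicit false

/-!
Project AE (helper74): THE ARGUMENT OF ZETA ON THE CRITICAL LINE RELATIVE TO EVERY DIRICHLET POLYNOMIAL, AND MOMENTS OF ALL COMPLEX ORDERS.

The starting tree (Q97/UM, files Stm10 and Q149, Q121, Q177, Q247, Q257 / UM) proves this for `log|ζ(1/2+it)|`. Here: the same for the argument
`az t = arg ζ(1/2+it) = π S(t)` (continuous variation from the right). THEOREM A. For every `m` there are `θ, δ > 0` and `C` such that for large `T`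
and ALL Dirichlet polynomials `B` of length `≤ T^θ`: `∫_T^{2T} |π S(t) - arg ∏_{p ≤ T^δ} (1 - p^{-1/2-it})^{-1}|^m |B|² ≤ C ∫_T^{2T} |B|²`.
Consequence (assembly, helper74): moments of all COMPLEX orders, `∫ ∏ |ζ(1/2+i(t+α_j))^{k_j}|² |B|²`, `k_j` complex, two-sided, off a set which is
negligible relative to every Dirichlet polynomial; order `T exp(∑_{p ≤ T} |∑_j k_j p^{-iα_j}|²/p)` for `B = 1`.

Every piece is an ADAPTATION of an existing proof of the starting tree (real part replaced by imaginary part); the argument has no logarithmic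
singularities, so everything is easier. Notation of Stm10.lean: `L = log T`, `D = δ L`, `mz`, `ZD T`, `SS`, `Ker`, `dp`, `N2`.
Statements are closed Props; wanted: `theorem t_XXX : J_XXX` (or `S_XXX`).
-/

namespace Pool.Agent.Run7.h74.AE

open Filter Topology MeasureTheory Complex
open Pool.Agent.Q97.UM
open Pool.Agent.W182.KO (P TF)

noncomputable section

/-- the argument of zeta at `1/2 + it`, by continuous variation along the horizontal ray from the right (`= π S(t)`) -/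
def az (t : ℝ) : ℝ := -∫ σ in Set.Ioi (1 / 2 : ℝ), (deriv riemannZeta (σ + t * I) / riemannZeta (σ + t * I)).im

/-- the smoothed prime sum: imaginary part of `∑ Λ(n)/log n · ψ₁(log n / D) n^{-1/2-it}` (compare `PP`) -/
def PPi (ψ₁ : ℝ → ℝ) (D t : ℝ) : ℝ := (∑ n ∈ Finset.Icc 2 ⌊Real.exp D⌋₊,
  ((ArithmeticFunction.vonMangoldt n / Real.log n * ψ₁ (Real.log n / D) : ℝ) : ℂ) * (n : ℂ) ^ (-(1 / 2 + t * I))).im

/-- the argument of the Euler product over the primes `≤ X`, at `1/2 + it` (sum of the principal arguments of the factors) -/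
def EA (X : ℕ) (t : ℝ) : ℝ := -∑ p ∈ (Finset.Icc 1 X).filter Nat.Prime, (Complex.log (1 - (p : ℂ) ^ (-(1 / 2 + t * I)))).im

/-- the smoothed difference of arguments -/
def GA (k₀ : ℝ → ℝ) (D u v : ℝ) : ℝ := ∫ y : ℝ, D * k₀ (D * y) * (Complex.arg ⟨v, u⟩ - Complex.arg ⟨v, u + y⟩)

/-- LITI: Littlewood's lemma with a weight, imaginary part. ADAPT `Pool.Agent.Q121.UM.t_LIT` (file Q121/UM/LIT.lean, 680 lines; import that file: the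
lemmas `decomp`, `box_int`, `cont1`, `cont2`, `clamp`, `io_inv` can be used as they are). PROOF. For all but finitely many `σ ∈ (a, b)`: `V(σ) = Vb(σ) - 2π ∑_{Re s > σ} m κ(s - σ - it)
- I (Hc(σ) - Hd(σ))` (lemma `vert` is the real part of this; take the imaginary part: `Im (-I w) = - Re w`), integrate over `σ ∈ (a, b)`, Fubini as there:
`∫_a^b Im V(σ) dσ = ∫_c^d κ(i(y-t)) ∫_a^b Im (F'/F)(σ + iy) dσ dy` (`κ(i(y-t))` is real). -/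
def S_LITI : Prop := ∀ (F κ : ℂ → ℂ) (a b c d t : ℝ) (Z : Finset ℂ), a < b → c < d →
  AnalyticOnNhd ℂ F (Set.Icc a b ×ℂ Set.Icc c d) → Differentiable ℂ κ → (∀ y : ℝ, (κ (y * I)).im = 0) →
  (∀ x ∈ Set.Icc a b, F ⟨x, c⟩ ≠ 0 ∧ F ⟨x, d⟩ ≠ 0) → (∀ y ∈ Set.Icc c d, F ⟨b, y⟩ ≠ 0) →
  (∀ s : ℂ, s ∈ Z ↔ a < s.re ∧ s.re < b ∧ c < s.im ∧ s.im < d ∧ F s = 0) →
  IntervalIntegrable (fun y => (κ ((y - t : ℝ) * I)).re * ∫ σ in a..b, (deriv F ⟨σ, y⟩ / F ⟨σ, y⟩).im) volume c d ∧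
  (∫ y in c..d, (κ ((y - t : ℝ) * I)).re * ∫ σ in a..b, (deriv F ⟨σ, y⟩ / F ⟨σ, y⟩).im) =
    (∫ σ in a..b, (∫ y in c..d, deriv F ⟨b, y⟩ / F ⟨b, y⟩ * κ (((b - σ : ℝ) : ℂ) + (y - t : ℝ) * I)).im) -
    2 * Real.pi * (∑ s ∈ Z, (H370.mult F s : ℝ) * ∫ σ in a..s.re, (κ (s - (σ + t * I))).im) -
    (∫ σ in a..b, ((∫ x in σ..b, deriv F ⟨x, c⟩ / F ⟨x, c⟩ * κ (((x - σ : ℝ) : ℂ) + (c - t : ℝ) * I)) -
      (∫ x in σ..b, deriv F ⟨x, d⟩ / F ⟨x, d⟩ * κ (((x - σ : ℝ) : ℂ) + (d - t : ℝ) * I))).re)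

/-- VAVI: the vertical average of the argument. Prove `S_KB → S_LITI → S_VAVI`. ADAPT `Pool.Agent.Q257.UM.t_VAV` (files Q257/UM/VAV.lean, VAVb.lean and what they import).
PROOF. As for `S_VAV` (doc string in Stm10.lean): S_LITI for `F = ζ`, `κ(z) = (D/2π) P ψ₁ (D z)`, `a = 1/2`, `b = 3/2`, `c = U1`, `d = U2`. For `u` which is not the height of a zero
`az u = -∫_{1/2}^{3/2} Im (ζ'/ζ)(σ+iu) dσ + Im ∑ Λ(n)/log n n^{-3/2-iu}` (split the integral over `(1/2, ∞)` at `3/2`; beyond `3/2` the series converges absolutely).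
Zero terms: `|∫_{1/2}^β Im κ(s - σ - it) dσ| ≤ ∫ |κ|`, the same bound as in VAV. Right edge: `∫_{1/2}^{3/2} Im Vb(σ) dσ = -Im ∑ Λ(n)/log n ψ₁(log n/D)
(n^{-1/2-it} - n^{-3/2-it}) + O(1)` and `∫ κ(i(u-t)) Im ∑ Λ(n)/log n n^{-3/2-iu} du = Im ∑ Λ(n)/log n ψ₁(log n/D) n^{-3/2-it} + O(1)`. -/
def S_VAVI : Prop := ∀ ψ₁ k₀ : ℝ → ℝ, Ker ψ₁ k₀ → ∀ δ : ℝ, 0 < δ → δ ≤ 1 / 8 → ∃ C : ℝ, 0 ≤ C ∧ ∀ᶠ T : ℝ in atTop, ∀ t : ℝ,
  T / 4 ≤ t → t ≤ 8 * T → ∃ U1 U2 : ℝ, t - T / 8 - 1 ≤ U1 ∧ U1 ≤ t - T / 8 ∧ t + T / 8 ≤ U2 ∧ U2 ≤ t + T / 8 + 1 ∧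
    |(∫ u in U1..U2, δ * Real.log T * k₀ (δ * Real.log T * (u - t)) * az u) - PPi ψ₁ (δ * Real.log T) t| ≤
      C * (1 + SS δ T t)

def J_VAVI : Prop := S_KB → S_LITI → S_VAVI

open Classical in
/-- LOCI: local expansion of the argument. ADAPT `Pool.Agent.Q149.UM.t_LOC` (files Q149/UM/LOC1.lean, LOC.lean). PROOF. In the disc with centre `2 + it` as in LOC: `ζ(s) = ∏ (s - ρ) g(s)`,
`g` without zeros, `|g'/g| ≤ C L`. `az u = -∫_{1/2}^{2} Im (ζ'/ζ)(σ+iu) dσ + O(1)` and for `u ≠ γ`: `∫_{1/2}^2 Im (1/(σ+iu-ρ)) dσ = arg(2+iu-ρ) - arg(1/2+iu-ρ)` (derivative of the principal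
argument along a horizontal line off the real axis), so (a) `|az u| ≤ C L` (`O(L)` zeros, arguments at most `π`). (b): the part of `g`: `∫_{1/2}^2 Im (g'/g)(σ+iu) dσ` at `u = t+y` minus `u = t` equals by Cauchy's theorem on the rectangle
(or: `d/du` of it) `Im` of integrals of `g'/g` over vertical segments of length `|y|`, `O(L|y|)`; at `σ = 2` also `|arg(2+i(t+y)-ρ) - arg(2+it-ρ)| ≤ |y|` for every zero, and `az` at `2+iu` (the part `σ > 2`) is Lipschitz in `u`. The zeros which are in exactly one of the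
two sets (disc; `|γ - t| ≤ 1`) are `O(L)` many at distance `≥ 1/10` from the segment `1/2 + i(t+y)`, `|y| ≤ 1/8`, AND such a zero with `|γ - t| ≤ 4/5` has `β < 2/5`, so the argument of `1/2+i(t+y)-ρ` is Lipschitz (it does not cross the
negative real axis). -/
def S_LOCI : Prop := ∃ C : ℝ, 0 ≤ C ∧ ∀ᶠ T : ℝ in atTop, ∀ t : ℝ, T / 8 ≤ t → t ≤ 9 * T →
  ((∀ s ∈ ZD T, s.im ≠ t) → |az t| ≤ C * Real.log T) ∧
  ∀ y : ℝ, |y| ≤ 1 / 8 → (∀ s ∈ ZD T, s.im ≠ t ∧ s.im ≠ t + y) → |(az (t + y) - az t) -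
    ∑ s ∈ (ZD T).filter (fun s => |s.im - t| ≤ 1), (mz s : ℝ) *
      (Complex.arg ((1 / 2 + (t + y : ℝ) * I : ℂ) - s) - Complex.arg ((1 / 2 + t * I : ℂ) - s))| ≤ C * Real.log T * |y|

/-- KLGI: the contribution of one zero. Prove `S_KB → S_KLGI`. PROOF (new, about 150 lines; compare Q121/UM/KLG.lean). Substitute `z = D y`, `U = D u`, `V = D v`; `a(U) = arg(V + iU)` is unchanged by the scaling:
`GA = ∫ k₀(z) (a(U) - a(U+z)) dz`, `|a| ≤ π`, `∫ k₀ = 1`. `|U| ≤ 1`: `|GA| ≤ 2π`. `|U| > 1`: for `|z| ≤ |U|/2` the segment from `U` to `U+z` does not contain `0`, there `a' = V/(U²+V²)`,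
`a'' = -2UV/(U²+V²)²`, `|a''| ≤ 1/U'² ≤ 4/U²`; as `k₀` is even the part `|z| ≤ |U|/2` is `½ ∫ k₀(z) (2a(U) - a(U+z) - a(U-z)) dz`, at most `½ ∫ k₀(z) z² 4/U² dz`;
the part `|z| > |U|/2` is at most `2π ∫_{|z| > |U|/2} k₀ ≤ C/U²` (`k₀(z) ≤ C (1+|z|)^{-8}`). -/
def S_KLGI : Prop := ∀ ψ₁ k₀ : ℝ → ℝ, Ker ψ₁ k₀ → ∃ C : ℝ, 0 ≤ C ∧ ∀ D u v : ℝ, 1 ≤ D → u ≠ 0 →
  Integrable (fun y : ℝ => D * k₀ (D * y) * (Complex.arg ⟨v, u⟩ - Complex.arg ⟨v, u + y⟩)) ∧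
  |GA k₀ D u v| ≤ C / (1 + D * |u|) ^ 2

def J_KLGI : Prop := S_KB → S_KLGI

/-- ARG: pointwise bound for the argument. Prove `S_KB → S_VAVI → S_LOCI → S_KLGI → Measurable az → S_ARG`. ADAPT `Pool.Agent.Q149.UM.t_DETQ` (files Q149/UM/DETQ1.lean, DETQ.lean). PROOF. `κ(y) = D k₀(D y)`, `∫ κ = 1`. By VAVI,
`PPi = ∫_{U1}^{U2} κ(u - t) az(u) du + O(1 + SS)`. `az t - ∫_{U1-t}^{U2-t} κ(y) az(t+y) dy = ∫_{|y| ≤ 1/8} κ(y) (az t - az(t+y)) dy + τ az t - ∫_{|y| > 1/8} κ(y) az(t+y) dy`, `τ = ∫_{|y| > 1/8} κ ≤ C L^{-5}`,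
`|az| ≤ C L` almost everywhere (LOCI (a), finitely many zeros), so the last two terms are `O(1)`. By LOCI (b) the first term is `∑_{|γ-t| ≤ 1} m ∫_{|y| ≤ 1/8} κ(y) (arg(s₀-ρ) - arg(s₀+iy-ρ)) dy + O(L ∫ κ|y|)`; extending
to all `y` costs `2π τ` times the number `O(L)` of zeros (`S_LOC`, last part; or from `H370`), and `s₀ - ρ = ⟨1/2 - β, t - γ⟩`, so KLGI bounds every term by `C/(1 + D|t-γ|)² ≤ C δ^{-2}/(1 + L|t-γ|)²`. -/
def S_ARG : Prop := ∀ ψ₁ k₀ : ℝ → ℝ, Ker ψ₁ k₀ → ∀ δ : ℝ, 0 < δ → δ ≤ 1 / 8 → ∃ C : ℝ, 0 ≤ C ∧ ∀ᶠ T : ℝ in atTop, ∀ t : ℝ,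
  T / 3 ≤ t → t ≤ 7 * T → (∀ s ∈ ZD T, s.im ≠ t) → |az t - PPi ψ₁ (δ * Real.log T) t| ≤ C * (1 + SS δ T t)

def J_ARG : Prop := S_KB → S_VAVI → S_LOC → S_LOCI → S_KLGI → Measurable az → S_ARG

open Classical in
/-- EULI: the smoothed sum and the Euler product, imaginary parts. Prove `S_KB → S_EULI`. ADAPT `Pool.Agent.Q149.UM.t_EUL` (file Q149/UM/EUL.lean). PROOF. `-log(1-z) = ∑ z^k/k`. Primes: `1 - ψ₁(log p/D)`.
Squares `p² ≤ e^D`: `½ |1 - ψ₁(2 log p / D)| / p ≤ C (log p)/(D p)`; squares `p ≤ e^D < p²`: `∑_{e^{D/2} < p ≤ e^D} 1/p = O(1)`; cubes and higher powers: `∑ p^{-3/2} = O(1)`. -/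
def S_EULI : Prop := ∀ ψ₁ k₀ : ℝ → ℝ, Ker ψ₁ k₀ → ∃ C : ℝ, 0 ≤ C ∧ ∀ D t : ℝ, 2 ≤ D →
  |EA ⌊Real.exp D⌋₊ t - PPi ψ₁ D t - (dp ⌊Real.exp D⌋₊ (fun n => if n.Prime then ((1 - ψ₁ (Real.log n / D) : ℝ) : ℂ) else 0) t).im| ≤ C

def J_EULI : Prop := S_KB → S_EULI

/-- AZM: measurability. PROOF. `ζ'/ζ(σ + it)` is a measurable function of `(σ, t)` (quotient of measurable functions: `riemannZeta` is continuous off `1`, its derivative is measurable, `measurable_deriv`), parametric integrals of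
(strongly) measurable functions are measurable (`MeasureTheory.StronglyMeasurable.integral_prod_right`). -/
def S_AZM : Prop := Measurable az

/-- THA: Theorem A. ADAPT `Pool.Agent.Q247.UM.t_THP` (files Q247/UM/THPa.lean, THP.lean; no singular sum). PROOF. For almost all `t` (not the height of a zero; the zeros of `ZD T` are finitely many) by ARG and EULI:
`|az - EA| ≤ C (1 + SS) + C + |dp X α|`; power `m`; STM, `|dp X α|^m ≤ 1 + |dp X α|^{2m}`, PMM, MVL. Measurability: S_AZM; `EA` is continuous (`1 - p^{-s}` is in the right half plane). -/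
def S_THA : Prop := ∀ m : ℕ, ∃ θ δ₀ : ℝ, 0 < θ ∧ 0 < δ₀ ∧ ∀ δ : ℝ, 0 < δ → δ ≤ δ₀ → ∃ C : ℝ, 0 ≤ C ∧ ∀ᶠ T : ℝ in atTop,
  ∀ N : ℕ, (N : ℝ) ≤ T ^ θ → ∀ b : ℕ → ℂ,
    IntervalIntegrable (fun t => |az t - EA ⌊T ^ δ⌋₊ t| ^ m * ‖dp N b t‖ ^ 2) volume (T / 2) (4 * T) ∧
    ∫ t in (T / 2)..(4 * T), |az t - EA ⌊T ^ δ⌋₊ t| ^ m * ‖dp N b t‖ ^ 2 ≤ C * T * N2 N b

def J_THA : Prop := S_KB → S_ARG → S_AZM → S_STM → S_EULI → S_PMM → S_MVL →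
  (∃ ψ₁ k₀ : ℝ → ℝ, Ker ψ₁ k₀) → (∃ θ c C : ℝ, 0 < θ ∧ θ ≤ 1 / 4 ∧ 0 < c ∧ 0 ≤ C ∧ TailB θ c C) → S_THA

/-- AZE: the argument is the argument. PROOF. Fix `t ≠ 0` such that `ζ(σ+it) ≠ 0` for `σ ≥ 1/2`. `h(σ) = ζ(σ+it) exp(∫_σ^∞ (ζ'/ζ)(x+it) dx)` has derivative `0` on `[1/2, ∞)`
and tends to `1`; so `ζ(1/2+it) = exp(-∫_{1/2}^∞ ζ'/ζ)`, take the unimodular part. (`|ζ'/ζ(σ+it)| ≤ C 2^{-σ}` for `σ ≥ 2`.) -/
def S_AZE : Prop := ∀ t : ℝ, t ≠ 0 → (∀ σ : ℝ, 1 / 2 ≤ σ → riemannZeta (σ + t * I) ≠ 0) → zt t = (‖zt t‖ : ℂ) * cexp (I * (az t : ℂ))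

end

end Pool.Agent.Run7.h74.AE
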