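import Pool.Agent.Run7.h74.AE.FinC
import Pool.Agent.Run7.h299.AE.ARG
import Pool.Agent.Run7.h416.AE.LITI
import Pool.Agent.Run7.h510.AE.AZE
import Pool.Agent.Run7.h510.AE.AZM
import Pool.Agent.Run7.h510.AE.KLGI
import Pool.Agent.Run7.h56.AE.THA
import Pool.Agent.Run7.h613.AE.VAVI
import Pool.Agent.Run7.h617.AE.EULI
import Pool.Agent.Run7.h376.AE.LOCI
import Pool.Agent.Q97.UM.Base8

set_option autoImplicit false

/-! Project AE (helper74): Theorem A unconditionally. -/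

namespace Pool.Agent.Run7.h74.AE

open Pool.Agent.Q97.UM

theorem full_ARG : S_ARG := Pool.Agent.Run7.h299.AE.t_ARG Pool.Agent.Q177.UM.t_KB
  (Run7.h613.AE.VAVI.t_VAVI Pool.Agent.Q177.UM.t_KB Pool.Agent.Run7.h416.AE.t_LITI) Pool.Agent.Q149.UM.t_LOC Run7.h376.AE.t_LOCI
  (Pool.Agent.Run7.h510.AE.t_KLGI Pool.Agent.Q177.UM.t_KB) Pool.Agent.Run7.h510.AE.t_AZM

theorem full_THA : S_THA := Pool.Agent.Run7.h56.AE.t_THA Pool.Agent.Q177.UM.t_KB full_ARG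
  Pool.Agent.Run7.h510.AE.t_AZM b_STM (Pool.Agent.Run7.h617.AE.t_EULI Pool.Agent.Q177.UM.t_KB) b_PMM
  Pool.Agent.Q84.UM.t_MVL b_KER b_TAIL

end Pool.Agent.Run7.h74.AE
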