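import Pool.Agent.Run7.h311.CM.LinM
import Pool.Agent.Run7.h74.AE.Iface

set_option autoImplicit false

/-!
Project AE (helper74): complex exponents, the algebra.
-/

open Filter Topology MeasureTheory Complex
open Pool.Agent.Q97.UM

namespace Pool.Agent.Run7.h74.AE

open Run7.h311.CM
open Pool.Agent.Q14.UM (KB' dp_qb sum_zj KB_le KB_one qb_len cv_len exp_neg_le exp_neg_mul_nat geo_le)
open Pool.Agent.Q98.UM (S3 S3_nonneg cv_supp supp_zero ae_zt norm_line_le norm_pow_line summable3 norm_cpow_I_le)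

noncomputable section

lemma log_factor {z : ℂ} (hz : ‖z‖ ≤ 3 / 4) : ‖-Complex.log (1 - z) - (z + z ^ 2 / 2)‖ ≤ 2 * ‖z‖ ^ 3 := by
  have h1 : ‖-z‖ < 1 := by rw [norm_neg]; linarith
  have h2 := Complex.norm_log_sub_logTaylor_le 2 h1
  have h3 : logTaylor 3 (-z) = -z - z ^ 2 / 2 := by
    rw [logTaylor_succ, logTaylor_succ, logTaylor_succ, logTaylor_zero]
    simp only [Pi.add_apply]
    push_cast
    ring
  rw [show (2 + 1 : ℕ) = 3 from rfl, h3, norm_neg] at h2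
  have h4 : -Complex.log (1 - z) - (z + z ^ 2 / 2) = -(Complex.log (1 + -z) - (-z - z ^ 2 / 2)) := by
    rw [← sub_eq_add_neg]
    ring
  rw [h4, norm_neg]
  refine h2.trans ?_
  have h6 : (1 - ‖z‖)⁻¹ ≤ 4 := by
    rw [inv_le_comm₀ (by linarith) (by norm_num)]
    linarith
  have h7 : 0 ≤ ‖z‖ ^ 3 := by positivity
  have h8 : ‖z‖ ^ 3 * (1 - ‖z‖)⁻¹ ≤ ‖z‖ ^ 3 * 4 := mul_le_mul_of_nonneg_left h6 h7
  have h9 : (((2 : ℕ) : ℝ) + 1) = 3 := by norm_num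
  rw [h9]
  have h10 : ‖z‖ ^ 3 * (1 - ‖z‖)⁻¹ / 3 ≤ ‖z‖ ^ 3 * 4 / 3 := by linarith
  linarith

/-- the logarithm of the Euler product -/
def LE (X : ℕ) (t : ℝ) : ℂ := -∑ p ∈ (Finset.Icc 1 X).filter Nat.Prime, Complex.log (1 - (p : ℂ) ^ (-(1 / 2 + t * I)))

lemma LE_re (X : ℕ) (t : ℝ) : (LE X t).re = EP X t := by
  unfold LE EP
  rw [Complex.neg_re, Complex.re_sum]
  simp only [Complex.log_re]

lemma LE_im (X : ℕ) (t : ℝ) : (LE X t).im = EA X t := by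
  unfold LE EA
  rw [Complex.neg_im, Complex.im_sum]

lemma LE_approx (X : ℕ) (s : ℝ) : ‖LE X s - ∑ p ∈ (Finset.Icc 1 X).filter Nat.Prime,
    ((p : ℂ) ^ (-(1 / 2 + s * I)) + ((p : ℂ) ^ (-(1 / 2 + s * I))) ^ 2 / 2)‖ ≤ 2 * S3 := by
  unfold LE
  rw [← Finset.sum_neg_distrib, ← Finset.sum_sub_distrib]
  refine (norm_sum_le _ _).trans ?_
  have h1 : ∀ p ∈ (Finset.Icc 1 X).filter Nat.Prime,
      ‖-Complex.log (1 - (p : ℂ) ^ (-(1 / 2 + s * I))) - ((p : ℂ) ^ (-(1 / 2 + s * I)) +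
        ((p : ℂ) ^ (-(1 / 2 + s * I))) ^ 2 / 2)‖ ≤ 2 * (p : ℝ) ^ (-(3 / 2) : ℝ) := by
    intro p hp
    have hp2 : 2 ≤ p := (Finset.mem_filter.mp hp).2.two_le
    refine (log_factor (norm_line_le hp2 s)).trans (le_of_eq ?_)
    rw [norm_pow_line hp2, ← Real.rpow_natCast, ← Real.rpow_mul (by positivity)]
    norm_num
  refine (Finset.sum_le_sum h1).trans ?_
  rw [← Finset.mul_sum]
  exact mul_le_mul_of_nonneg_left (summable3.sum_le_tsum _ fun n _ => by positivity) (by norm_num)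

/-- coefficients with complex exponents -/
def apc {n : ℕ} (k : Fin n → ℂ) (α : Fin n → ℝ) (p : ℕ) : ℂ := ∑ j, k j * (p : ℂ) ^ (-(α j * I))

lemma norm_apc_le {n : ℕ} (k : Fin n → ℂ) (α : Fin n → ℝ) {A : ℝ} (h : ∑ j, ‖k j‖ ≤ A) (p : ℕ) : ‖apc k α p‖ ≤ A := by
  unfold apc
  refine (norm_sum_le _ _).trans (le_trans (Finset.sum_le_sum fun j _ => ?_) h)
  rw [norm_mul]
  exact mul_le_of_le_one_right (norm_nonneg _) (norm_cpow_I_le p (α j))

lemma PA_apc {n : ℕ} (k : Fin n → ℂ) (α : Fin n → ℝ) (X : ℕ) (t : ℝ) :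
    PA X (apc k α) (apc k fun j => 2 * α j) t = ∑ j, k j *
      ∑ p ∈ (Finset.Icc 1 X).filter Nat.Prime,
        ((p : ℂ) ^ (-(1 / 2 + (t + α j : ℝ) * I)) +
          ((p : ℂ) ^ (-(1 / 2 + (t + α j : ℝ) * I))) ^ 2 / 2) := by
  unfold PA
  simp_rw [Finset.mul_sum]
  rw [Finset.sum_comm]
  refine Finset.sum_congr rfl fun p hp => ?_
  have hp0 : (p : ℂ) ≠ 0 := by
    have := (Finset.mem_filter.mp hp).2.pos
    exact_mod_cast this.ne'
  unfold apc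
  have h1 : ∀ j, k j * ((p : ℂ) ^ (-(1 / 2 + (t + α j : ℝ) * I)) +
      ((p : ℂ) ^ (-(1 / 2 + (t + α j : ℝ) * I))) ^ 2 / 2) =
      k j * (p : ℂ) ^ (-(α j * I)) * (p : ℂ) ^ (-(1 / 2 + t * I)) +
      k j * (p : ℂ) ^ (-((2 * α j : ℝ) * I)) / 2 * (p : ℂ) ^ (-(1 + 2 * t * I)) := by
    intro j
    have e1 : (p : ℂ) ^ (-(1 / 2 + (t + α j : ℝ) * I)) =
        (p : ℂ) ^ (-(α j * I)) * (p : ℂ) ^ (-(1 / 2 + t * I)) := by
      rw [← Complex.cpow_add _ _ hp0]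
      congr 1
      push_cast
      ring
    have e2 : ((p : ℂ) ^ (-(1 / 2 + (t + α j : ℝ) * I))) ^ 2 =
        (p : ℂ) ^ (-((2 * α j : ℝ) * I)) * (p : ℂ) ^ (-(1 + 2 * t * I)) := by
      rw [← Complex.cpow_nat_mul, ← Complex.cpow_add _ _ hp0]
      congr 1
      push_cast
      ring
    rw [e2, e1]
    ring
  rw [Finset.sum_congr rfl fun j _ => h1 j, Finset.sum_add_distrib, Finset.sum_mul,
      Finset.sum_div, Finset.sum_mul]

lemma LE_PA {n : ℕ} (k : Fin n → ℂ) (α : Fin n → ℝ) {A : ℝ} (h : ∑ j, ‖k j‖ ≤ A) (X : ℕ) (t : ℝ) :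
    ‖∑ j, k j * LE X (t + α j) - PA X (apc k α) (apc k fun j => 2 * α j) t‖ ≤ A * (2 * S3) := by
  rw [PA_apc, ← Finset.sum_sub_distrib]
  refine (norm_sum_le _ _).trans ?_
  have h1 : ∀ j ∈ (Finset.univ : Finset (Fin n)), ‖k j * LE X (t + α j) - k j *
      ∑ p ∈ (Finset.Icc 1 X).filter Nat.Prime,
        ((p : ℂ) ^ (-(1 / 2 + (t + α j : ℝ) * I)) +
          ((p : ℂ) ^ (-(1 / 2 + (t + α j : ℝ) * I))) ^ 2 / 2)‖ ≤ ‖k j‖ * (2 * S3) := by
    intro j _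
    rw [← mul_sub, norm_mul]
    exact mul_le_mul_of_nonneg_left (LE_approx X (t + α j)) (norm_nonneg _)
  refine (Finset.sum_le_sum h1).trans ?_
  rw [← Finset.sum_mul]
  exact mul_le_mul_of_nonneg_right h (by have := S3_nonneg; linarith)

lemma zf_apc {n : ℕ} (k : Fin n → ℂ) (α : Fin n → ℝ) {D : ℝ} (hD : 0 ≤ D) (l : ℕ) (t : ℝ) :
    zf D (apc k α) (apc k fun j => 2 * α j) l t = ∑ j, k j * zf D u1 u1 l (t + α j) := by
  simp only [zf_eq]
  rw [dp_qb D _ _ hD]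
  simp_rw [dp_qb D u1 u1 hD, Finset.mul_sum]
  rw [Finset.sum_comm]
  refine Finset.sum_congr rfl fun p hp => ?_
  have hp0 : (p : ℂ) ≠ 0 := by
    have := (Pool.Agent.Q14.UM.mem_PB hp).1.pos
    exact_mod_cast this.ne'
  unfold apc u1
  rw [Finset.sum_mul, Finset.sum_div, Finset.sum_mul, ← Finset.sum_add_distrib]
  refine Finset.sum_congr rfl fun j _ => ?_
  have e1 : (p : ℂ) ^ (-(1 / 2 + ((t + α j : ℝ) : ℂ) * I)) =
      (p : ℂ) ^ (-(α j * I)) * (p : ℂ) ^ (-(1 / 2 + t * I)) := by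
    rw [← Complex.cpow_add _ _ hp0]
    congr 1
    push_cast
    ring
  have e2 : (p : ℂ) ^ (-(1 + 2 * ((t + α j : ℝ) : ℂ) * I)) =
      (p : ℂ) ^ (-((2 * α j : ℝ) * I)) * (p : ℂ) ^ (-(1 + 2 * t * I)) := by
    rw [← Complex.cpow_add _ _ hp0]
    congr 1
    push_cast
    ring
  rw [e1, e2]
  ring

/-- the truncated exponential at regular points -/
theorem reg_c {n : ℕ} {k : Fin n → ℂ} {α : Fin n → ℝ} {A κ D t : ℝ} (hA : 1 ≤ A) (hk : ∑ j, ‖k j‖ ≤ A) (hκ : 4 ≤ κ)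
    (hD : 1 ≤ D) (h : ∀ j, Reg D κ A (t + α j)) :
    1 / 2 * Real.exp ((∑ j, k j * LE ⌊Real.exp D⌋₊ (t + α j)).re - A * (2 * S3)) ≤
        ‖Ef D κ (apc k α) (apc k fun j => 2 * α j) 0 t‖ ∧
      ‖Ef D κ (apc k α) (apc k fun j => 2 * α j) 0 t‖ ≤
        2 * Real.exp ((∑ j, k j * LE ⌊Real.exp D⌋₊ (t + α j)).re + A * (2 * S3)) := by
  have hA0 : 0 < A := by linarith
  have h1 : ∀ l < JB D, ‖zf D (apc k α) (apc k fun j => 2 * α j) l t‖ ≤ R9 κ l / 10 := by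
    intro l hl
    rw [zf_apc k α (by linarith) l t]
    refine (norm_sum_le _ _).trans ?_
    calc ∑ j, ‖k j * zf D u1 u1 l (t + α j)‖ ≤ ∑ j, ‖k j‖ * (R9 κ l / (10 * A)) := by
          refine Finset.sum_le_sum fun j _ => ?_
          rw [norm_mul]
          exact mul_le_mul_of_nonneg_left (h j l hl) (norm_nonneg _)
      _ = (∑ j, ‖k j‖) * (R9 κ l / (10 * A)) := by rw [Finset.sum_mul]
      _ ≤ A * (R9 κ l / (10 * A)) := mul_le_mul_of_nonneg_right hk (by positivity)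
      _ = R9 κ l / 10 := by field_simp
  obtain ⟨h2, h3⟩ := ef_two hκ h1
  have h0 := LE_PA k α hk ⌊Real.exp D⌋₊ t
  rw [← sum_zj D _ _ hD t] at h0
  have h4 := abs_le.1 ((Complex.abs_re_le_norm _).trans h0)
  rw [Complex.sub_re, Complex.re_sum (Finset.range (JB D))] at h4
  have e : ∑ l ∈ Finset.range (JB D), (dp (KB' D l) (qb D (apc k α) (apc k fun j => 2 * α j) l) t).re =
      ∑ l ∈ Finset.range (JB D), (zf D (apc k α) (apc k fun j => 2 * α j) l t).re := rfl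
  rw [e] at h4
  constructor
  · refine le_trans ?_ h2
    gcongr
    linarith [h4.2]
  · refine h3.trans ?_
    gcongr
    linarith [h4.1]

lemma EA_cont (X : ℕ) : Continuous (EA X) := by
  unfold EA
  refine (continuous_finsetSum _ fun p hp => ?_).neg
  have hp2 : 2 ≤ p := (Finset.mem_filter.mp hp).2.two_le
  have hp0 : (p : ℂ) ≠ 0 := by
    have : 0 < p := by omega
    exact_mod_cast this.ne'
  have hc : Continuous fun t : ℝ => 1 - (p : ℂ) ^ (-(1 / 2 + t * I)) := by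
    refine continuous_const.sub (Continuous.const_cpow (by fun_prop) (Or.inl hp0))
  refine Complex.continuous_im.comp (hc.clog fun t => ?_)
  left
  rw [Complex.sub_re, Complex.one_re]
  have h1 := (Complex.re_le_norm ((p : ℂ) ^ (-(1 / 2 + t * I)))).trans (norm_line_le hp2 t)
  linarith

end

end Pool.Agent.Run7.h74.AE
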