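import Pool.Agent.Run7.h74.AE.LinC
import Pool.Agent.Run7.h74.DW.Fin

set_option autoImplicit false

/-!
Project AE (helper74): the final theorem on moments of complex orders, from S_THA and S_AZM.
-/

open Filter Topology MeasureTheory Complex
open Pool.Agent.Q97.UM

namespace Pool.Agent.Run7.h74.AE

open Run7.h311.CM
open Pool.Agent.Q98.UM (S3 S3_nonneg cv_supp supp_zero)
open Pool.Agent.Run7.h74.DW (cover)

noncomputable section

/-- the `t` in `(T, 2T]` all of whose shifts are regular -/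
def SC (δ κ A W T : ℝ) {n : ℕ} (α : Fin n → ℝ) : Set ℝ :=
  Set.Ioc T (2 * T) ∩ {t : ℝ | ∀ j, t + α j ∈ GGC δ κ A W T}

lemma SC_meas (hz : S_AZM) (δ κ A W T : ℝ) {n : ℕ} (α : Fin n → ℝ) : MeasurableSet (SC δ κ A W T α) := by
  refine measurableSet_Ioc.inter ?_
  have e : {t : ℝ | ∀ j, t + α j ∈ GGC δ κ A W T} = ⋂ j, (fun t => t + α j) ⁻¹' (GGC δ κ A W T) := by
    ext t
    simp
  rw [e]
  exact MeasurableSet.iInter fun j => (measurable_add_const (α j)) (GGC_meas hz δ κ A W T)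

lemma wz_meas (hz : S_AZM) {n : ℕ} (k : Fin n → ℂ) (α : Fin n → ℝ) : Measurable (wz k α) := by
  unfold wz
  refine Finset.measurable_fun_prod _ fun j _ => ?_
  refine Measurable.mul ?_ ?_
  · exact ((zt_meas.comp (measurable_add_const (α j))).norm).pow_const _
  · have h1 : Measurable az := hz
    exact Real.measurable_exp.comp (((h1.comp (measurable_add_const (α j))).const_mul _).neg)

lemma wz_nn {n : ℕ} (k : Fin n → ℂ) (α : Fin n → ℝ) (t : ℝ) : 0 ≤ wz k α t := by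
  unfold wz
  exact Finset.prod_nonneg fun j _ => by positivity

/-- the data of the final theorem -/
structure FDC (A ε δ κ W c C T : ℝ) : Prop where
  neg : ∀ α : ℝ, |α| ≤ T / 2 → ∀ N : ℕ, (N : ℝ) ≤ T ^ δ → ∀ b : ℕ → ℂ, (∀ n, b n ≠ 0 → 1 ≤ n ∧ n ≤ N) →
    ∫ t in Set.Ioc T (2 * T) ∩ {t : ℝ | t + α ∉ GGC δ κ A W T}, ‖dp N b t‖ ^ 2 ≤ ε * (T * N2 N b)
  supp : ∀ (n : ℕ) (k : Fin n → ℂ) (α : Fin n → ℝ), ∀ m, ecc δ κ T k α m ≠ 0 → 1 ≤ m ∧ m ≤ M9 (δ * Real.log T) κ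
  ord : ∀ (n : ℕ) (k : Fin n → ℂ) (α : Fin n → ℝ), ∑ j, ‖k j‖ ≤ A →
    c * Real.exp (PS k α T) ≤ N2 (M9 (δ * Real.log T) κ) (ecc δ κ T k α) ∧
      N2 (M9 (δ * Real.log T) κ) (ecc δ κ T k α) ≤ C * Real.exp (PS k α T)
  low : ∀ (n : ℕ) (k : Fin n → ℂ) (α : Fin n → ℝ), (n : ℝ) ≤ A → ∑ j, ‖k j‖ ≤ A → (∀ j, |α j| ≤ T / 2) →
    ∀ N : ℕ, (N : ℝ) ≤ T ^ δ → ∀ b : ℕ → ℂ, (∀ n, b n ≠ 0 → 1 ≤ n ∧ n ≤ N) →
    c * (T * N2 (M9 (δ * Real.log T) κ * N) (cv (ecc δ κ T k α) b)) ≤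
      ∫ t in SC δ κ A W T α, wz k α t * ‖dp N b t‖ ^ 2
  upp : ∀ (n : ℕ) (k : Fin n → ℂ) (α : Fin n → ℝ), ∑ j, ‖k j‖ ≤ A →
    ∀ N : ℕ, (N : ℝ) ≤ T ^ δ → ∀ b : ℕ → ℂ, (∀ n, b n ≠ 0 → 1 ≤ n ∧ n ≤ N) →
    ∫ t in SC δ κ A W T α, wz k α t * ‖dp N b t‖ ^ 2 ≤
      C * (T * N2 (M9 (δ * Real.log T) κ * N) (cv (ecc δ κ T k α) b))
  int : ∀ (n : ℕ) (k : Fin n → ℂ) (α : Fin n → ℝ), ∑ j, ‖k j‖ ≤ A →
    ∀ N : ℕ, (N : ℝ) ≤ T ^ δ → ∀ b : ℕ → ℂ, (∀ n, b n ≠ 0 → 1 ≤ n ∧ n ≤ N) →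
    IntegrableOn (fun t => wz k α t * ‖dp N b t‖ ^ 2) (SC δ κ A W T α)

theorem finc_main (hA1 : S_THA) (hz : S_AZM) (A ε : ℝ) (hA : 1 ≤ A) (hε : 0 < ε) :
    ∃ δ κ W c C : ℝ, 0 < δ ∧ 4 ≤ κ ∧ 28 * κ * δ ≤ 1 / 8 ∧ 0 < W ∧ 0 < c ∧ 0 < C ∧
      ∀ᶠ T : ℝ in atTop, FDC A ε δ κ W c C T := by
  obtain ⟨δ, κ, W, c, C, hδ, hκ, hκδ, -, hW, hc, hC, h⟩ := linc_main hA1 hz A (min ε (1 / (4 * A))) 1 hA (by positivity) one_pos
  refine ⟨δ, κ, W, min c (c / 4), 2 * C, hδ, hκ, hκδ, hW, by positivity, by positivity, ?_⟩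
  filter_upwards [h, eventually_ge_atTop 16] with T hd hT
  have hT0 : 0 < T := by linarith
  have hT1 : 1 ≤ T := by linarith
  have hA0 : 0 < A := by linarith
  have hmono : ∀ {x y : ℝ}, x ≤ y → T ^ x ≤ T ^ y := fun h => Real.rpow_le_rpow_of_exponent_le hT1 h
  set M := M9 (δ * Real.log T) κ with hM
  have hML : (M : ℝ) ≤ T ^ (26 * κ * δ) := M9_le hT0 (by linarith) hδ.le
  have hMN : ∀ N : ℕ, (N : ℝ) ≤ T ^ δ → ((M * N : ℕ) : ℝ) ≤ T ^ (28 * κ * δ) := by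
    intro N hN
    push_cast
    calc (M : ℝ) * N ≤ T ^ (26 * κ * δ) * T ^ δ := mul_le_mul hML hN (Nat.cast_nonneg _) (by positivity)
      _ = T ^ (26 * κ * δ + δ) := by rw [← Real.rpow_add hT0]
      _ ≤ _ := hmono (by nlinarith)
  -- facts for given data
  have key : ∀ (n : ℕ) (k : Fin n → ℂ) (α : Fin n → ℝ), ∑ j, ‖k j‖ ≤ A → ∀ N : ℕ, (N : ℝ) ≤ T ^ δ → ∀ b : ℕ → ℂ,
      (∀ n, b n ≠ 0 → 1 ≤ n ∧ n ≤ N) →
      (∀ m, cv (ecc δ κ T k α) b m ≠ 0 → 1 ≤ m ∧ m ≤ M * N) ∧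
      (∀ t, (∀ j, t + α j ∈ GGC δ κ A W T) →
        c * ‖dp (M * N) (cv (ecc δ κ T k α) b) t‖ ^ 2 ≤ wz k α t * ‖dp N b t‖ ^ 2 ∧
        wz k α t * ‖dp N b t‖ ^ 2 ≤ C * ‖dp (M * N) (cv (ecc δ κ T k α) b) t‖ ^ 2) ∧
      IntegrableOn (fun t => wz k α t * ‖dp N b t‖ ^ 2) (SC δ κ A W T α) := by
    intro n k α hk N hN b hb
    have hes := hd.supp n k α
    rw [← hM] at hes
    have hFeq : ∀ t, ‖dp M (ecc δ κ T k α) t‖ ^ 2 * ‖dp N b t‖ ^ 2 =
        ‖dp (M * N) (cv (ecc δ κ T k α) b) t‖ ^ 2 := fun t => by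
      rw [← Pool.Agent.Q84.UM.t_DPM.1 M N (ecc δ κ T k α) b t (supp_zero hes) (supp_zero hb), norm_mul, mul_pow]
    have hpt : ∀ t, (∀ j, t + α j ∈ GGC δ κ A W T) →
        c * ‖dp (M * N) (cv (ecc δ κ T k α) b) t‖ ^ 2 ≤ wz k α t * ‖dp N b t‖ ^ 2 ∧
        wz k α t * ‖dp N b t‖ ^ 2 ≤ C * ‖dp (M * N) (cv (ecc δ κ T k α) b) t‖ ^ 2 := by
      intro t ht
      obtain ⟨q1, q2⟩ := hd.pt n k α hk t ht
      rw [← hM] at q1 q2
      rw [← hFeq, ← mul_assoc, ← mul_assoc]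
      exact ⟨mul_le_mul_of_nonneg_right q1 (by positivity), mul_le_mul_of_nonneg_right q2 (by positivity)⟩
    refine ⟨cv_supp hes hb, hpt, ?_⟩
    have hFI : IntegrableOn (fun t => ‖dp (M * N) (cv (ecc δ κ T k α) b) t‖ ^ 2) (SC δ κ A W T α) :=
      ((((Pool.Agent.Q84.UM.t_DPM.2.2 _ _ 0).2.norm.pow 2).integrableOn_Icc (a := T) (b := 2 * T)).mono_set
        Set.Ioc_subset_Icc_self).mono_set Set.inter_subset_left
    have hGc : Measurable fun t => wz k α t * ‖dp N b t‖ ^ 2 :=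
      (wz_meas hz k α).mul ((Pool.Agent.Q84.UM.t_DPM.2.2 N b 0).2.norm.pow 2).measurable
    refine Integrable.mono' (hFI.const_mul C) hGc.aestronglyMeasurable ?_
    refine (ae_restrict_iff' (SC_meas hz δ κ A W T α)).2 (Eventually.of_forall fun t ht => ?_)
    rw [Real.norm_of_nonneg (mul_nonneg (wz_nn k α t) (by positivity))]
    exact (hpt t ht.2).2
  refine ⟨?_, hd.supp, ?_, ?_, ?_, fun n k α hk N hN b hb => (key n k α hk N hN b hb).2.2⟩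
  · intro α hα N hN b hb
    refine (hd.neg α hα N b (hN.trans (hmono (by nlinarith))) (supp_zero hb)).trans ?_
    exact mul_le_mul_of_nonneg_right (min_le_left _ _) (mul_nonneg hT0.le (Pool.Agent.Q84.UM.N2_nonneg _ _))
  · intro n k α hk
    obtain ⟨h1, h2⟩ := hd.ord n k α hk
    refine ⟨(mul_le_mul_of_nonneg_right (min_le_left _ _) (Real.exp_pos _).le).trans h1, h2.trans ?_⟩
    have := Real.exp_pos (PS k α T)
    nlinarith
  · intro n k α hn hk hα N hN b hb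
    obtain ⟨hfs, hpt, hint⟩ := key n k α hk N hN b hb
    set f := cv (ecc δ κ T k α) b with hf
    have hlen := hMN N hN
    have hn2 : 0 ≤ T * N2 (M * N) f := mul_nonneg hT0.le (Pool.Agent.Q84.UM.N2_nonneg _ _)
    have hFc : Continuous fun t => ‖dp (M * N) f t‖ ^ 2 := (Pool.Agent.Q84.UM.t_DPM.2.2 _ _ 0).2.norm.pow 2
    have hFI : IntegrableOn (fun t => ‖dp (M * N) f t‖ ^ 2) (Set.Ioc T (2 * T)) :=
      (hFc.integrableOn_Icc (a := T) (b := 2 * T)).mono_set Set.Ioc_subset_Icc_self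
    obtain ⟨m1, -⟩ := Pool.Agent.Q84.UM.t_MVL T hT (M * N) (hlen.trans (hmono (by linarith))) f
    rw [intervalIntegral.integral_of_le (by linarith)] at m1
    have h2 := cover (T := T) α MeasurableSet.univ (GGC_meas hz δ κ A W T) hFI (fun t => by positivity)
    simp only [Set.inter_univ] at h2
    have h3 : ∑ j, ∫ t in Set.Ioc T (2 * T) ∩ {t : ℝ | t + α j ∉ GGC δ κ A W T}, ‖dp (M * N) f t‖ ^ 2 ≤
        1 / 4 * (T * N2 (M * N) f) := by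
      calc ∑ j, ∫ t in Set.Ioc T (2 * T) ∩ {t : ℝ | t + α j ∉ GGC δ κ A W T}, ‖dp (M * N) f t‖ ^ 2
          ≤ ∑ _j : Fin n, (1 / (4 * A)) * (T * N2 (M * N) f) := by
            refine Finset.sum_le_sum fun j _ => ?_
            refine (hd.neg _ (hα j) (M * N) f hlen (supp_zero hfs)).trans ?_
            exact mul_le_mul_of_nonneg_right (min_le_right _ _) hn2
        _ = ((n : ℝ) * (1 / (4 * A))) * (T * N2 (M * N) f) := by
            rw [Finset.sum_const, Finset.card_univ, Fintype.card_fin, nsmul_eq_mul]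
            ring
        _ ≤ 1 / 4 * (T * N2 (M * N) f) := by
            refine mul_le_mul_of_nonneg_right ?_ hn2
            calc (n : ℝ) * (1 / (4 * A)) ≤ A * (1 / (4 * A)) :=
                  mul_le_mul_of_nonneg_right hn (by positivity)
              _ = 1 / 4 := by field_simp
    have h5 : 1 / 4 * (T * N2 (M * N) f) ≤ ∫ t in SC δ κ A W T α, ‖dp (M * N) f t‖ ^ 2 := by
      have e : SC δ κ A W T α = Set.Ioc T (2 * T) ∩ {t : ℝ | ∀ j, t + α j ∈ GGC δ κ A W T} := rfl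
      rw [e]
      linarith
    have hFS : IntegrableOn (fun t => ‖dp (M * N) f t‖ ^ 2) (SC δ κ A W T α) := hFI.mono_set Set.inter_subset_left
    calc min c (c / 4) * (T * N2 (M * N) f) ≤ c / 4 * (T * N2 (M * N) f) :=
          mul_le_mul_of_nonneg_right (min_le_right _ _) hn2
      _ = c * (1 / 4 * (T * N2 (M * N) f)) := by ring
      _ ≤ c * ∫ t in SC δ κ A W T α, ‖dp (M * N) f t‖ ^ 2 := mul_le_mul_of_nonneg_left h5 hc.le
      _ = ∫ t in SC δ κ A W T α, c * ‖dp (M * N) f t‖ ^ 2 := by rw [integral_const_mul]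
      _ ≤ _ := setIntegral_mono_on (hFS.const_mul _) hint (SC_meas hz δ κ A W T α) fun t ht => (hpt t ht.2).1
  · intro n k α hk N hN b hb
    obtain ⟨hfs, hpt, hint⟩ := key n k α hk N hN b hb
    set f := cv (ecc δ κ T k α) b with hf
    have hlen := hMN N hN
    have hFc : Continuous fun t => ‖dp (M * N) f t‖ ^ 2 := (Pool.Agent.Q84.UM.t_DPM.2.2 _ _ 0).2.norm.pow 2
    have hFI : IntegrableOn (fun t => ‖dp (M * N) f t‖ ^ 2) (Set.Ioc T (2 * T)) :=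
      (hFc.integrableOn_Icc (a := T) (b := 2 * T)).mono_set Set.Ioc_subset_Icc_self
    have hSsub : SC δ κ A W T α ⊆ Set.Ioc T (2 * T) := Set.inter_subset_left
    obtain ⟨-, m2⟩ := Pool.Agent.Q84.UM.t_MVL T hT (M * N) (hlen.trans (hmono (by linarith))) f
    rw [intervalIntegral.integral_of_le (by linarith)] at m2
    calc ∫ t in SC δ κ A W T α, wz k α t * ‖dp N b t‖ ^ 2
        ≤ ∫ t in SC δ κ A W T α, C * ‖dp (M * N) f t‖ ^ 2 :=
          setIntegral_mono_on hint ((hFI.mono_set hSsub).const_mul _) (SC_meas hz δ κ A W T α) fun t ht => (hpt t ht.2).2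
      _ = C * ∫ t in SC δ κ A W T α, ‖dp (M * N) f t‖ ^ 2 := by rw [integral_const_mul]
      _ ≤ C * (2 * T * N2 (M * N) f) := by
          refine mul_le_mul_of_nonneg_left ?_ hC.le
          exact (setIntegral_mono_set hFI (Eventually.of_forall fun t => by
            simp only [Pi.zero_apply]; positivity) (Eventually.of_forall hSsub)).trans m2
      _ = 2 * C * (T * N2 (M * N) f) := by ring

end

end Pool.Agent.Run7.h74.AE
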