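import Pool.Agent.Run7.h74.AE.Cx

set_option autoImplicit false

/-!
Project AE (helper74): the good set with the argument, moments of complex orders (assembly from S_THA and S_AZM).
-/

open Filter Topology MeasureTheory Complex
open Pool.Agent.Q97.UM

namespace Pool.Agent.Run7.h74.AE

open Run7.h311.CM
open Pool.Agent.Q98.UM (S3 S3_nonneg cv_supp supp_zero)

noncomputable section

/-- the regular points, with the argument -/
def GGC (δ κ A W T : ℝ) : Set ℝ := GGL δ κ A W T ∩ {t : ℝ | |az t - EA ⌊T ^ δ⌋₊ t| ≤ W}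

lemma GGC_meas (hz : S_AZM) (δ κ A W T : ℝ) : MeasurableSet (GGC δ κ A W T) := by
  refine (GGL_meas δ κ A W T).inter ?_
  refine measurableSet_le ?_ measurable_const
  have h1 : Measurable az := hz
  exact ((h1.sub (EA_cont _).measurable)).abs

lemma shift_az {T C : ℝ} {X N : ℕ} {f : ℕ → ℂ} (hT : 0 ≤ T)
    (h : ∀ b : ℕ → ℂ,
      IntervalIntegrable (fun t => |az t - EA X t| ^ 1 * ‖dp N b t‖ ^ 2) volume (T / 2) (4 * T) ∧
      ∫ t in (T / 2)..(4 * T), |az t - EA X t| ^ 1 * ‖dp N b t‖ ^ 2 ≤ C * T * N2 N b)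
    {α : ℝ} (hα : |α| ≤ T / 2) :
    IntervalIntegrable (fun t => |az (t + α) - EA X (t + α)| * ‖dp N f t‖ ^ 2) volume T (2 * T) ∧
      ∫ t in T..(2 * T), |az (t + α) - EA X (t + α)| * ‖dp N f t‖ ^ 2 ≤ C * T * N2 N f := by
  have hD := Pool.Agent.Q84.UM.t_DPM
  set b : ℕ → ℂ := fun n => f n * (n : ℂ) ^ (α * I) with hb
  obtain ⟨h1, h2⟩ := h b
  set Ψ : ℝ → ℝ := fun t => |az t - EA X t| ^ 1 * ‖dp N b t‖ ^ 2 with hΨ
  have e1 : (fun t => |az (t + α) - EA X (t + α)| * ‖dp N f t‖ ^ 2) = fun t => Ψ (t + α) := by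
    funext t
    have e2 := (hD.2.1 N f (t + α) α).1
    rw [add_sub_cancel_right] at e2
    simp only [hΨ, pow_one]
    rw [hb, ← e2]
  obtain ⟨a1, a2⟩ := abs_le.mp hα
  have hsub : Set.uIcc (T + α) (2 * T + α) ⊆ Set.uIcc (T / 2) (4 * T) := by
    rw [Set.uIcc_of_le (by linarith), Set.uIcc_of_le (by linarith)]
    exact Set.Icc_subset_Icc (by linarith) (by linarith)
  have h3 := (h1.mono_set hsub).comp_add_right α
  rw [add_sub_cancel_right, add_sub_cancel_right] at h3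
  rw [e1]
  refine ⟨h3, ?_⟩
  rw [intervalIntegral.integral_comp_add_right Ψ α]
  refine (intervalIntegral.integral_mono_interval (by linarith) (by linarith) (by linarith) ?_ h1).trans ?_
  · exact Eventually.of_forall fun t => by
      simp only [hΨ, Pi.zero_apply]
      positivity
  · refine h2.trans (le_of_eq ?_)
    rw [hb, (hD.2.1 N f 0 α).2]

/-- the mass outside -/
theorem out_c (hz : S_AZM) {C₁ E δ κ A W T : ℝ} (hW : 0 < W) (hT : 0 < T) {M : ℕ} {f : ℕ → ℂ} {α : ℝ} (hα : |α| ≤ T / 2)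
    (hTP : ∀ b : ℕ → ℂ,
      IntervalIntegrable (fun t => |az t - EA ⌊T ^ δ⌋₊ t| ^ 1 * ‖dp M b t‖ ^ 2) volume (T / 2) (4 * T) ∧
      ∫ t in (T / 2)..(4 * T), |az t - EA ⌊T ^ δ⌋₊ t| ^ 1 * ‖dp M b t‖ ^ 2 ≤ C₁ * T * N2 M b)
    (hneg : ∫ t in Set.Ioc T (2 * T) ∩ {t : ℝ | t + α ∉ GGL δ κ A W T}, ‖dp M f t‖ ^ 2 ≤ E) :
    ∫ t in Set.Ioc T (2 * T) ∩ {t : ℝ | t + α ∉ GGC δ κ A W T}, ‖dp M f t‖ ^ 2 ≤ E + C₁ / W * (T * N2 M f) := by
  have hle : T ≤ 2 * T := by linarith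
  obtain ⟨v1, v2⟩ := shift_az (f := f) hT.le hTP hα
  have hFc : Continuous fun t => ‖dp M f t‖ ^ 2 := (Pool.Agent.Q84.UM.t_DPM.2.2 _ _ 0).2.norm.pow 2
  have hFI : IntegrableOn (fun t => ‖dp M f t‖ ^ 2) (Set.Ioc T (2 * T)) :=
    (hFc.integrableOn_Icc (a := T) (b := 2 * T)).mono_set Set.Ioc_subset_Icc_self
  set S : Set ℝ := Set.Ioc T (2 * T) ∩ {t : ℝ | t + α ∉ GGC δ κ A W T} with hS
  set S₁ : Set ℝ := Set.Ioc T (2 * T) ∩ {t : ℝ | t + α ∉ GGL δ κ A W T} with hS₁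
  have hSm : MeasurableSet S :=
    measurableSet_Ioc.inter ((measurable_add_const α) (GGC_meas hz δ κ A W T)).compl
  have hS₁m : MeasurableSet S₁ :=
    measurableSet_Ioc.inter ((measurable_add_const α) (GGL_meas δ κ A W T)).compl
  have hVI : IntegrableOn (fun t => |az (t + α) - EA ⌊T ^ δ⌋₊ (t + α)| * ‖dp M f t‖ ^ 2) (Set.Ioc T (2 * T)) :=
    (intervalIntegrable_iff_integrableOn_Ioc_of_le hle).1 v1
  have i1 : IntegrableOn (S₁.indicator fun t => ‖dp M f t‖ ^ 2) (Set.Ioc T (2 * T)) := Integrable.indicator hFI hS₁m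
  have i0 : IntegrableOn (S.indicator fun t => ‖dp M f t‖ ^ 2) (Set.Ioc T (2 * T)) := Integrable.indicator hFI hSm
  have hpt : ∀ t ∈ Set.Ioc T (2 * T), S.indicator (fun t => ‖dp M f t‖ ^ 2) t ≤
      S₁.indicator (fun t => ‖dp M f t‖ ^ 2) t + 1 / W * (|az (t + α) - EA ⌊T ^ δ⌋₊ (t + α)| * ‖dp M f t‖ ^ 2) := by
    intro t ht
    have h0 : 0 ≤ 1 / W * (|az (t + α) - EA ⌊T ^ δ⌋₊ (t + α)| * ‖dp M f t‖ ^ 2) := by positivity
    have h1 : 0 ≤ S₁.indicator (fun t => ‖dp M f t‖ ^ 2) t := Set.indicator_nonneg (fun t _ => by positivity) t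
    by_cases hs : t ∈ S
    · rw [Set.indicator_of_mem hs]
      by_cases hs₁ : t ∈ S₁
      · rw [Set.indicator_of_mem hs₁]
        linarith
      · have h2 : t + α ∈ GGL δ κ A W T := by
          by_contra h
          exact hs₁ ⟨ht, h⟩
        have h3 : W < |az (t + α) - EA ⌊T ^ δ⌋₊ (t + α)| := by
          by_contra h
          exact hs.2 ⟨h2, not_lt.1 h⟩
        have h4 : ‖dp M f t‖ ^ 2 ≤ 1 / W * (|az (t + α) - EA ⌊T ^ δ⌋₊ (t + α)| * ‖dp M f t‖ ^ 2) := by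
          rw [← mul_assoc]
          refine le_mul_of_one_le_left (by positivity) ?_
          rw [one_div, inv_mul_eq_div, one_le_div hW]
          exact h3.le
        linarith
    · rw [Set.indicator_of_notMem hs]
      linarith
  calc ∫ t in S, ‖dp M f t‖ ^ 2 = ∫ t in Set.Ioc T (2 * T), S.indicator (fun t => ‖dp M f t‖ ^ 2) t := by
        rw [setIntegral_indicator hSm, Set.inter_eq_self_of_subset_right Set.inter_subset_left]
    _ ≤ ∫ t in Set.Ioc T (2 * T), (S₁.indicator (fun t => ‖dp M f t‖ ^ 2) t +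
          1 / W * (|az (t + α) - EA ⌊T ^ δ⌋₊ (t + α)| * ‖dp M f t‖ ^ 2)) :=
        setIntegral_mono_on i0 (i1.add (hVI.const_mul _)) measurableSet_Ioc hpt
    _ = (∫ t in S₁, ‖dp M f t‖ ^ 2) +
          1 / W * ∫ t in T..(2 * T), |az (t + α) - EA ⌊T ^ δ⌋₊ (t + α)| * ‖dp M f t‖ ^ 2 := by
        rw [integral_add i1 (hVI.const_mul _), integral_const_mul, setIntegral_indicator hS₁m,
          Set.inter_eq_self_of_subset_right Set.inter_subset_left, intervalIntegral.integral_of_le hle]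
    _ ≤ E + 1 / W * (C₁ * T * N2 M f) := add_le_add hneg (mul_le_mul_of_nonneg_left v2 (by positivity))
    _ = _ := by ring

/-- coefficients of the comparison polynomial -/
def ecc (δ κ T : ℝ) {n : ℕ} (k : Fin n → ℂ) (α : Fin n → ℝ) : ℕ → ℂ :=
  ebk (δ * Real.log T) κ (apc k α) (apc k fun j => 2 * α j) 0 (JB (δ * Real.log T))

/-- the exponent -/
def PS {n : ℕ} (k : Fin n → ℂ) (α : Fin n → ℝ) (T : ℝ) : ℝ :=
  ∑ p ∈ (Finset.Icc 1 ⌊T⌋₊).filter Nat.Prime, ‖apc k α p‖ ^ 2 / p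

lemma PS_near {δ : ℝ} (hδ : 0 < δ) (hδ1 : δ ≤ 1) : ∃ C : ℝ, 0 ≤ C ∧ ∀ᶠ T : ℝ in atTop,
    ∀ (A : ℝ) (n : ℕ) (k : Fin n → ℂ) (α : Fin n → ℝ), ∑ j, ‖k j‖ ≤ A →
      |(∑ p ∈ (Finset.Icc 1 ⌊T ^ δ⌋₊).filter Nat.Prime, ‖apc k α p‖ ^ 2 / p) - PS k α T| ≤ A ^ 2 * C := by
  obtain ⟨C₁, h1⟩ := Pool.Agent.Q149.UM.t_MZ δ hδ hδ1
  obtain ⟨C₂, h2⟩ := Pool.Agent.Q149.UM.t_MZ 1 one_pos le_rfl
  refine ⟨max 0 (C₁ + C₂), le_max_left _ _, ?_⟩
  filter_upwards [h1, h2, eventually_ge_atTop 1] with T h1 h2 hT A n k α hk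
  have h1 := h1 0
  have h2 := h2 0
  simp only [zero_mul, Real.cos_zero, Real.rpow_one] at h1 h2
  have hTδ : T ^ δ ≤ T := by
    calc T ^ δ ≤ T ^ (1 : ℝ) := Real.rpow_le_rpow_of_exponent_le hT hδ1
      _ = T := Real.rpow_one T
  have hsub : (Finset.Icc 1 ⌊T ^ δ⌋₊).filter Nat.Prime ⊆ (Finset.Icc 1 ⌊T⌋₊).filter Nat.Prime := by
    refine Finset.filter_subset_filter _ (Finset.Icc_subset_Icc_right (Nat.floor_mono hTδ))
  have hA0 : 0 ≤ ∑ j, ‖k j‖ := Finset.sum_nonneg fun j _ => norm_nonneg _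
  unfold PS
  rw [← Finset.sum_sdiff hsub]
  have e1 : (∑ p ∈ (Finset.Icc 1 ⌊T ^ δ⌋₊).filter Nat.Prime, ‖apc k α p‖ ^ 2 / (p : ℝ)) -
      (∑ p ∈ ((Finset.Icc 1 ⌊T⌋₊).filter Nat.Prime) \ ((Finset.Icc 1 ⌊T ^ δ⌋₊).filter Nat.Prime), ‖apc k α p‖ ^ 2 / (p : ℝ) +
        ∑ p ∈ (Finset.Icc 1 ⌊T ^ δ⌋₊).filter Nat.Prime, ‖apc k α p‖ ^ 2 / (p : ℝ)) =
      -∑ p ∈ ((Finset.Icc 1 ⌊T⌋₊).filter Nat.Prime) \ ((Finset.Icc 1 ⌊T ^ δ⌋₊).filter Nat.Prime), ‖apc k α p‖ ^ 2 / (p : ℝ) := by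
    ring
  rw [e1, abs_neg, abs_of_nonneg (Finset.sum_nonneg fun p _ => by positivity)]
  have e2 : ∑ p ∈ ((Finset.Icc 1 ⌊T⌋₊).filter Nat.Prime) \ ((Finset.Icc 1 ⌊T ^ δ⌋₊).filter Nat.Prime), (1 : ℝ) / p ≤ C₁ + C₂ := by
    have e3 := Finset.sum_sdiff (f := fun p : ℕ => (1 : ℝ) / p) hsub
    have h3 := (abs_le.1 h1).1
    have h4 := (abs_le.1 h2).2
    linarith
  calc ∑ p ∈ ((Finset.Icc 1 ⌊T⌋₊).filter Nat.Prime) \ ((Finset.Icc 1 ⌊T ^ δ⌋₊).filter Nat.Prime), ‖apc k α p‖ ^ 2 / (p : ℝ)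
      ≤ ∑ p ∈ ((Finset.Icc 1 ⌊T⌋₊).filter Nat.Prime) \ ((Finset.Icc 1 ⌊T ^ δ⌋₊).filter Nat.Prime), A ^ 2 * (1 / p) := by
        refine Finset.sum_le_sum fun p _ => ?_
        rw [div_eq_mul_one_div]
        refine mul_le_mul_of_nonneg_right ?_ (by positivity)
        exact pow_le_pow_left₀ (norm_nonneg _) (norm_apc_le k α hk p) 2
    _ = A ^ 2 * ∑ p ∈ ((Finset.Icc 1 ⌊T⌋₊).filter Nat.Prime) \ ((Finset.Icc 1 ⌊T ^ δ⌋₊).filter Nat.Prime), (1 : ℝ) / p := by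
        rw [Finset.mul_sum]
    _ ≤ A ^ 2 * max 0 (C₁ + C₂) := mul_le_mul_of_nonneg_left (e2.trans (le_max_right _ _)) (by positivity)

/-- the size of the product of complex powers -/
def wz {n : ℕ} (k : Fin n → ℂ) (α : Fin n → ℝ) (t : ℝ) : ℝ :=
  ∏ j, (‖zt (t + α j)‖ ^ (2 * (k j).re) * Real.exp (-(2 * (k j).im * az (t + α j))))

/-- the data -/
structure LDC (A ε δ κ W c C T : ℝ) : Prop where
  neg : ∀ α : ℝ, |α| ≤ T / 2 → ∀ (M : ℕ) (f : ℕ → ℂ), (M : ℝ) ≤ T ^ (28 * κ * δ) → (∀ n, M < n → f n = 0) →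
    ∫ t in Set.Ioc T (2 * T) ∩ {t : ℝ | t + α ∉ GGC δ κ A W T}, ‖dp M f t‖ ^ 2 ≤ ε * (T * N2 M f)
  supp : ∀ (n : ℕ) (k : Fin n → ℂ) (α : Fin n → ℝ), ∀ m, ecc δ κ T k α m ≠ 0 → 1 ≤ m ∧ m ≤ M9 (δ * Real.log T) κ
  ord : ∀ (n : ℕ) (k : Fin n → ℂ) (α : Fin n → ℝ), ∑ j, ‖k j‖ ≤ A →
    c * Real.exp (PS k α T) ≤ N2 (M9 (δ * Real.log T) κ) (ecc δ κ T k α) ∧
      N2 (M9 (δ * Real.log T) κ) (ecc δ κ T k α) ≤ C * Real.exp (PS k α T)
  pt : ∀ (n : ℕ) (k : Fin n → ℂ) (α : Fin n → ℝ), ∑ j, ‖k j‖ ≤ A → ∀ t : ℝ, (∀ j, t + α j ∈ GGC δ κ A W T) →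
    c * ‖dp (M9 (δ * Real.log T) κ) (ecc δ κ T k α) t‖ ^ 2 ≤ wz k α t ∧
      wz k α t ≤ C * ‖dp (M9 (δ * Real.log T) κ) (ecc δ κ T k α) t‖ ^ 2

theorem linc_main (hA1 : S_THA) (hz : S_AZM) (A ε θ₀ : ℝ) (hA : 1 ≤ A) (hε : 0 < ε) (hθ₀ : 0 < θ₀) : ∃ δ κ W c C : ℝ, 0 < δ ∧
    4 ≤ κ ∧ 28 * κ * δ ≤ 1 / 8 ∧ 28 * κ * δ ≤ θ₀ ∧ 0 < W ∧ 0 < c ∧ 0 < C ∧ ∀ᶠ T : ℝ in atTop, LDC A ε δ κ W c C T := by
  obtain ⟨θ₃, δ₀, hθ₃, hδ₀, hTP⟩ := b_THP 1
  obtain ⟨θ₄, δ₄, hθ₄, hδ₄, hTA⟩ := hA1 1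
  obtain ⟨C₀, hC₀, hblk⟩ := blk_sum
  obtain ⟨κ₀, hκ₀, c₂, C₂, hc₂, hC₂, hEN⟩ := b_EN2 A hA
  obtain ⟨κ, hκ4, hκκ, hκε⟩ : ∃ κ : ℝ, 4 ≤ κ ∧ κ₀ ≤ κ ∧ 200 * A ^ 2 * C₀ / κ ≤ ε / 2 := by
    refine ⟨max κ₀ (400 * A ^ 2 * C₀ / ε), hκ₀.trans (le_max_left _ _), le_max_left _ _, ?_⟩
    have h1 : 0 < max κ₀ (400 * A ^ 2 * C₀ / ε) := lt_of_lt_of_le (by linarith) (le_max_left _ _)
    rw [div_le_iff₀ h1]
    have h2 := le_max_right κ₀ (400 * A ^ 2 * C₀ / ε)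
    have h3 : ε / 2 * (400 * A ^ 2 * C₀ / ε) = 200 * A ^ 2 * C₀ := by
      field_simp
      norm_num
    rw [← h3]
    exact mul_le_mul_of_nonneg_left h2 (by positivity)
  have hκ0 : 0 < κ := by linarith
  obtain ⟨θ, hθ0, hθ40, hθa, hθb, hθc⟩ : ∃ θ : ℝ, 0 < θ ∧ θ ≤ 1 / 8 ∧ θ ≤ θ₃ ∧ θ ≤ θ₀ ∧ θ ≤ θ₄ :=
    ⟨min (min (1 / 8) θ₄) (min θ₃ θ₀), by positivity, (min_le_left _ _).trans (min_le_left _ _),
      (min_le_right _ _).trans (min_le_left _ _), (min_le_right _ _).trans (min_le_right _ _),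
      (min_le_left _ _).trans (min_le_right _ _)⟩
  obtain ⟨δ, hδ, hδ1, hδ2, hδ3⟩ : ∃ δ : ℝ, 0 < δ ∧ 30 * κ * δ ≤ θ ∧ δ ≤ δ₀ ∧ δ ≤ δ₄ := by
    refine ⟨min (θ / (30 * κ)) (min δ₀ δ₄), by positivity, ?_, (min_le_right _ _).trans (min_le_left _ _),
      (min_le_right _ _).trans (min_le_right _ _)⟩
    calc 30 * κ * min (θ / (30 * κ)) (min δ₀ δ₄) ≤ 30 * κ * (θ / (30 * κ)) :=
          mul_le_mul_of_nonneg_left (min_le_left _ _) (by positivity)
      _ = θ := by field_simp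
  have hδ1' : δ ≤ 1 := by nlinarith
  obtain ⟨C₁, hC₁, hTP⟩ := hTP δ hδ hδ2
  obtain ⟨C₄, hC₄, hTA⟩ := hTA δ hδ hδ3
  obtain ⟨C₃, hC₃, hPR⟩ := PS_near hδ hδ1'
  obtain ⟨W, hW, hWε⟩ : ∃ W : ℝ, 0 < W ∧ C₁ / W + C₄ / W ≤ ε / 2 := by
    refine ⟨2 * (C₁ + C₄) / ε + 1, by positivity, ?_⟩
    rw [← add_div, div_le_iff₀ (by positivity)]
    have : ε / 2 * (2 * (C₁ + C₄) / ε + 1) = C₁ + C₄ + ε / 2 := by field_simp
    linarith
  have hS3 := S3_nonneg
  set K : ℝ := 4 * A * W + 4 * A * S3 with hK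
  have hK0 : 0 ≤ K := by positivity
  refine ⟨δ, κ, W, min (c₂ * Real.exp (-(A ^ 2 * C₃))) (Real.exp (-K) / 4),
    max (C₂ * Real.exp (A ^ 2 * C₃)) (4 * Real.exp K) + 1, hδ, hκ4, by nlinarith, by nlinarith, hW, by positivity,
    by positivity, ?_⟩
  filter_upwards [hTP, hTA, hPR, eventually_ge_atTop 16,
    (Real.tendsto_log_atTop.eventually_ge_atTop (1 / δ))] with T hTP hTA hPR hT16 hLδ
  have hT0 : 0 < T := by linarith
  have hT1 : 1 ≤ T := by linarith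
  have hD1 : 1 ≤ δ * Real.log T := by
    rw [div_le_iff₀ hδ] at hLδ
    linarith
  set D := δ * Real.log T with hD
  have hTδ : T ^ δ = Real.exp D := by
    rw [Real.rpow_def_of_pos hT0, hD, mul_comm]
  have hmono : ∀ {x y : ℝ}, x ≤ y → T ^ x ≤ T ^ y := fun h => Real.rpow_le_rpow_of_exponent_le hT1 h
  have hneg : ∀ α : ℝ, |α| ≤ T / 2 → ∀ (M : ℕ) (f : ℕ → ℂ), (M : ℝ) ≤ T ^ (28 * κ * δ) →
      (∀ n, M < n → f n = 0) →
      ∫ t in Set.Ioc T (2 * T) ∩ {t : ℝ | t + α ∉ GGC δ κ A W T}, ‖dp M f t‖ ^ 2 ≤ ε * (T * N2 M f) := by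
    intro α hα M f hM hf
    rcases Nat.eq_zero_or_pos M with h0 | hM1
    · subst h0
      have e1 : N2 0 f = 0 := by unfold N2; simp
      have e2 : ∀ t, dp 0 f t = 0 := fun t => by unfold dp; simp
      simp [e1, e2]
    have h1 := out_lin (M := M) hδ hκ4 hA hW hC₀ hC₁ hT16 hD1 hblk (by linarith) hM1 hM
      (fun b => hTP M (hM.trans (hmono (by nlinarith))) b) hf hα
    refine (out_c hz hW hT0 hα (fun b => hTA M (hM.trans (hmono (by nlinarith))) b) h1).trans ?_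
    rw [← add_mul]
    exact mul_le_mul_of_nonneg_right (by linarith) (mul_nonneg hT0.le (N2_nonneg _ _))
  have hcof : ∀ (n : ℕ) (k : Fin n → ℂ) (α : Fin n → ℝ), (∀ m, ecc δ κ T k α m ≠ 0 → 1 ≤ m ∧ m ≤ M9 D κ) ∧
      ∀ t, dp (M9 D κ) (ecc δ κ T k α) t = Ef D κ (apc k α) (apc k fun j => 2 * α j) 0 t := by
    intro n k α
    have h := b_COF κ D (by linarith) hD1 (apc k α) (apc k fun j => 2 * α j) u1 u1 0 0
    rw [Nat.sub_zero] at h
    exact ⟨h.1, h.2.1⟩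
  refine ⟨hneg, fun n k α => (hcof n k α).1, ?_, ?_⟩
  · intro n k α hk
    have h1 := hEN κ D (apc k α) (apc k fun j => 2 * α j) hκκ hD1 (norm_apc_le k α hk) (norm_apc_le k _ hk)
    rw [← hTδ] at h1
    have h2 := abs_le.1 (hPR A n k α hk)
    constructor
    · refine le_trans ?_ h1.1
      calc min (c₂ * Real.exp (-(A ^ 2 * C₃))) (Real.exp (-K) / 4) * Real.exp (PS k α T)
          ≤ c₂ * Real.exp (-(A ^ 2 * C₃)) * Real.exp (PS k α T) :=
            mul_le_mul_of_nonneg_right (min_le_left _ _) (by positivity)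
        _ = c₂ * Real.exp (PS k α T - A ^ 2 * C₃) := by
            rw [mul_assoc, ← Real.exp_add]
            congr 2
            ring
        _ ≤ _ := mul_le_mul_of_nonneg_left (Real.exp_le_exp.mpr (by linarith [h2.1])) hc₂.le
    · refine h1.2.trans ?_
      calc C₂ * Real.exp (∑ p ∈ (Finset.Icc 1 ⌊T ^ δ⌋₊).filter Nat.Prime, ‖apc k α p‖ ^ 2 / p)
          ≤ C₂ * Real.exp (PS k α T + A ^ 2 * C₃) :=
            mul_le_mul_of_nonneg_left (Real.exp_le_exp.mpr (by linarith [h2.2])) hC₂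
        _ = C₂ * Real.exp (A ^ 2 * C₃) * Real.exp (PS k α T) := by
            rw [Real.exp_add]
            ring
        _ ≤ (max (C₂ * Real.exp (A ^ 2 * C₃)) (4 * Real.exp K) + 1) * Real.exp (PS k α T) := by
            refine mul_le_mul_of_nonneg_right ?_ (Real.exp_pos _).le
            linarith [le_max_left (C₂ * Real.exp (A ^ 2 * C₃)) (4 * Real.exp K)]
  · intro n k α hk t ht2
    obtain ⟨hes, hed⟩ := hcof n k α
    set e : ℕ → ℂ := ecc δ κ T k α with he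
    set M := M9 D κ with hM
    have hpt : Real.exp (-K) / 4 * ‖dp M e t‖ ^ 2 ≤ wz k α t ∧ wz k α t ≤ 4 * Real.exp K * ‖dp M e t‖ ^ 2 := by
      obtain ⟨g1, g2⟩ := reg_c hA hk hκ4 hD1 (fun j => (ht2 j).1.2.2)
      rw [← hTδ] at g1 g2
      rw [hed]
      set E := ‖Ef D κ (apc k α) (apc k fun j => 2 * α j) 0 t‖ with hE
      set x := (∑ j, k j * LE ⌊T ^ δ⌋₊ (t + α j)).re with hx
      have hE2a : 1 / 4 * Real.exp (2 * x - 4 * A * S3) ≤ E ^ 2 := by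
        have := pow_le_pow_left₀ (by positivity) g1 2
        rw [mul_pow, ← Real.exp_nat_mul] at this
        refine le_trans (le_of_eq ?_) this
        norm_num
        ring_nf
      have hE2b : E ^ 2 ≤ 4 * Real.exp (2 * x + 4 * A * S3) := by
        have := pow_le_pow_left₀ (norm_nonneg _) g2 2
        rw [mul_pow, ← Real.exp_nat_mul] at this
        refine le_trans this (le_of_eq ?_)
        norm_num
        ring_nf
      have hprod : wz k α t =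
          Real.exp (∑ j, (Real.log ‖zt (t + α j)‖ * (2 * (k j).re) + -(2 * (k j).im * az (t + α j)))) := by
        unfold wz
        rw [Real.exp_sum]
        refine Finset.prod_congr rfl fun j _ => ?_
        rw [Real.exp_add, Real.rpow_def_of_pos (norm_pos_iff.mpr (ht2 j).1.1)]
      have hx2 : x = ∑ j, ((k j).re * EP ⌊T ^ δ⌋₊ (t + α j) - (k j).im * EA ⌊T ^ δ⌋₊ (t + α j)) := by
        rw [hx, Complex.re_sum]
        refine Finset.sum_congr rfl fun j _ => ?_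
        rw [Complex.mul_re, LE_re, LE_im]
      have hv : |(∑ j, (Real.log ‖zt (t + α j)‖ * (2 * (k j).re) + -(2 * (k j).im * az (t + α j)))) - 2 * x| ≤ 4 * A * W := by
        rw [hx2, Finset.mul_sum, ← Finset.sum_sub_distrib]
        refine (Finset.abs_sum_le_sum_abs _ _).trans ?_
        calc ∑ j, |Real.log ‖zt (t + α j)‖ * (2 * (k j).re) + -(2 * (k j).im * az (t + α j)) -
              2 * ((k j).re * EP ⌊T ^ δ⌋₊ (t + α j) - (k j).im * EA ⌊T ^ δ⌋₊ (t + α j))|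
            ≤ ∑ j, 4 * ‖k j‖ * W := by
              refine Finset.sum_le_sum fun j _ => ?_
              have e1 : Real.log ‖zt (t + α j)‖ * (2 * (k j).re) + -(2 * (k j).im * az (t + α j)) -
                  2 * ((k j).re * EP ⌊T ^ δ⌋₊ (t + α j) - (k j).im * EA ⌊T ^ δ⌋₊ (t + α j)) =
                  2 * (k j).re * (Real.log ‖zt (t + α j)‖ - EP ⌊T ^ δ⌋₊ (t + α j)) -
                    2 * (k j).im * (az (t + α j) - EA ⌊T ^ δ⌋₊ (t + α j)) := by ring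
              have h1 : |2 * (k j).re * (Real.log ‖zt (t + α j)‖ - EP ⌊T ^ δ⌋₊ (t + α j))| ≤ 2 * ‖k j‖ * W := by
                rw [abs_mul, abs_mul, abs_two]
                have := Complex.abs_re_le_norm (k j)
                have := (ht2 j).1.2.1
                gcongr
              have h2 : |2 * (k j).im * (az (t + α j) - EA ⌊T ^ δ⌋₊ (t + α j))| ≤ 2 * ‖k j‖ * W := by
                rw [abs_mul, abs_mul, abs_two]
                have := Complex.abs_im_le_norm (k j)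
                have := (ht2 j).2
                have h3 : |az (t + α j) - EA ⌊T ^ δ⌋₊ (t + α j)| ≤ W := this
                gcongr
              rw [e1]
              refine (abs_sub _ _).trans ?_
              linarith
          _ = 4 * (∑ j, ‖k j‖) * W := by rw [← Finset.sum_mul, ← Finset.mul_sum]
          _ ≤ 4 * A * W := by gcongr
      have hv3 := abs_le.1 hv
      rw [hprod]
      constructor
      · calc Real.exp (-K) / 4 * E ^ 2 ≤ Real.exp (-K) / 4 * (4 * Real.exp (2 * x + 4 * A * S3)) := by gcongr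
          _ = Real.exp (2 * x - 4 * A * W) := by
              rw [hK]
              have : Real.exp (2 * x - 4 * A * W) = Real.exp (-(4 * A * W + 4 * A * S3)) *
                  Real.exp (2 * x + 4 * A * S3) := by
                rw [← Real.exp_add]
                congr 1
                ring
              rw [this]
              ring
          _ ≤ _ := Real.exp_le_exp.2 (by linarith [hv3.1])
      · calc Real.exp (∑ j, (Real.log ‖zt (t + α j)‖ * (2 * (k j).re) + -(2 * (k j).im * az (t + α j)))) ≤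
              Real.exp (2 * x + 4 * A * W) := Real.exp_le_exp.2 (by linarith [hv3.2])
          _ = 4 * Real.exp K * (1 / 4 * Real.exp (2 * x - 4 * A * S3)) := by
              rw [hK]
              have : Real.exp (2 * x + 4 * A * W) = Real.exp (4 * A * W + 4 * A * S3) *
                  Real.exp (2 * x - 4 * A * S3) := by
                rw [← Real.exp_add]
                congr 1
                ring
              rw [this]
              ring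
          _ ≤ _ := by gcongr
    refine ⟨le_trans ?_ hpt.1, hpt.2.trans ?_⟩
    · exact mul_le_mul_of_nonneg_right (min_le_right _ _) (by positivity)
    · have h7 := le_max_right (C₂ * Real.exp (A ^ 2 * C₃)) (4 * Real.exp K)
      exact mul_le_mul_of_nonneg_right (h7.trans (by linarith)) (by positivity)

end

end Pool.Agent.Run7.h74.AE
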